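import Pool.Agent.H29.SX.Targets

/-!
Board `shx_modules`, row FRL: the Frobenius substitution for the level fields.
-/

set_option autoImplicit false

namespace Pool.Agent.H79.SX

open NumberField Height Finset Polynomial Pool.Agent.H24.RD Pool.Agent.H23.RDD Pool.Agent.H29.RQ
  Pool.Agent.H29.SX

theorem fp_sub_pow {E : Type} [Field E] [NumberField E] (u : FinitePlace E) (a b : E)
    (ha : u.1 a ≤ 1) (hb : u.1 b ≤ 1) (n : ℕ) : u.1 (a ^ n - b ^ n) ≤ u.1 (a - b) := by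
  induction n with
  | zero =>
    rw [pow_zero, pow_zero, sub_self, map_zero]
    exact u.1.nonneg _
  | succ n ih =>
    have h1 : a ^ (n + 1) - b ^ (n + 1) = a ^ n * (a - b) + (a ^ n - b ^ n) * b := by ring
    rw [h1]
    have h2 := NumberField.FinitePlace.add_le u (a ^ n * (a - b)) ((a ^ n - b ^ n) * b)
    refine le_trans h2 (max_le ?_ ?_)
    · change u.1 (a ^ n * (a - b)) ≤ _
      rw [map_mul, map_pow]
      exact mul_le_of_le_one_left (u.1.nonneg _) (pow_le_one₀ (u.1.nonneg _) ha)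
    · change u.1 ((a ^ n - b ^ n) * b) ≤ _
      rw [map_mul]
      exact le_trans (mul_le_of_le_one_right (u.1.nonneg _) hb) ih

theorem frl_step {F E : Type} [Field F] [Field E] [NumberField E] [Algebra F E]
    (u : FinitePlace E) (Q : ℕ) (ε : ℝ) (hε : 0 ≤ ε) (φ : E ≃ₐ[F] E)
    (hφ1 : ∀ x : E, u.1 (φ x) = u.1 x) (hφ2 : ∀ x : E, u.1 x ≤ 1 → u.1 (φ x - x ^ Q) ≤ ε) :
    ∀ (j : ℕ) (x : E), u.1 ((φ ^ j) x) = u.1 x ∧
      (u.1 x ≤ 1 → u.1 ((φ ^ j) x - x ^ (Q ^ j)) ≤ ε) := by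
  intro j
  induction j with
  | zero =>
    intro x
    refine ⟨rfl, fun _ => ?_⟩
    have h1 : (φ ^ 0) x = x := rfl
    rw [h1, pow_zero, pow_one, sub_self, map_zero]
    exact hε
  | succ j ih =>
    intro x
    have h1 : (φ ^ (j + 1)) x = φ ((φ ^ j) x) := by
      rw [pow_succ']
      rfl
    obtain ⟨h2, h3⟩ := ih x
    refine ⟨?_, fun hx => ?_⟩
    · rw [h1, hφ1, h2]
    · have hy : u.1 ((φ ^ j) x) ≤ 1 := by rw [h2]; exact hx
      have hz : u.1 (x ^ (Q ^ j)) ≤ 1 := by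
        rw [map_pow]
        exact pow_le_one₀ (u.1.nonneg _) hx
      have h4 : (φ ^ (j + 1)) x - x ^ (Q ^ (j + 1)) =
          (φ ((φ ^ j) x) - ((φ ^ j) x) ^ Q) + (((φ ^ j) x) ^ Q - (x ^ (Q ^ j)) ^ Q) := by
        rw [h1, ← pow_mul, ← pow_succ]
        ring
      rw [h4]
      have h5 := NumberField.FinitePlace.add_le u (φ ((φ ^ j) x) - ((φ ^ j) x) ^ Q)
        (((φ ^ j) x) ^ Q - (x ^ (Q ^ j)) ^ Q)
      exact le_trans h5 (max_le (hφ2 _ hy)
        (le_trans (fp_sub_pow u _ _ hy hz Q) (h3 hx)))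

theorem frl_aux (h1 : T_RS) (F Ω : Type) [Field F] [Field Ω] [Algebra F Ω] [IsAlgClosed Ω]
    [Algebra.IsAlgebraic F Ω] (E : IntermediateField F Ω) [NumberField E] (p f : ℕ) (δ : ℝ)
    (φ : E ≃ₐ[F] E) (hφ : ∀ w : FinitePlace E, w.1 (p : E) < 1 →
      (∀ x : E, w.1 (φ x) = w.1 x) ∧
      ∀ x : E, w.1 x ≤ 1 → w.1 (φ x - x ^ (p ^ f)) ≤ w.1 (p : E) ^ δ) :
    ∃ Φ : Ω ≃ₐ[F] Ω, FroL F Ω E p (3 * f) δ Φ := by
  have hcl : IsAlgClosure F Ω := ⟨inferInstance, inferInstance⟩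
  have hnorm : Normal F Ω := IsAlgClosure.normal F Ω
  obtain ⟨Φ, hΦ⟩ : ∃ Φ : Ω ≃ₐ[F] Ω, ∀ x : E, Φ (x : Ω) = (((φ ^ 3) x : E) : Ω) :=
    ⟨(φ ^ 3).liftNormal Ω, fun x => AlgEquiv.liftNormal_commutes (φ ^ 3) Ω x⟩
  have hΦc : ∀ (c : ℕ) (x : E), (Φ ^ c) (x : Ω) = (((φ ^ (3 * c)) x : E) : Ω) := by
    intro c
    induction c with
    | zero => intro x; rfl
    | succ c ih =>
      intro x
      have e1 : (Φ ^ (c + 1)) (x : Ω) = Φ ((Φ ^ c) (x : Ω)) := by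
        rw [pow_succ']
        rfl
      have e2 : (φ ^ (3 * (c + 1))) x = (φ ^ 3) ((φ ^ (3 * c)) x) := by
        have e3 : 3 * (c + 1) = 3 + 3 * c := by ring
        rw [e3, pow_add]
        rfl
      rw [e1, ih, hΦ, e2]
  refine ⟨Φ, ?_⟩
  intro M _ hEM w hw c x x' hx hx'
  letI : Algebra E M := (IntermediateField.inclusion hEM).toRingHom.toAlgebra
  obtain ⟨u, κ, hκ, hu⟩ := h1 E M w
  have hmap : ∀ e : E, ((algebraMap E M e : M) : Ω) = (e : Ω) := fun e => rfl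
  have hp : w.1 (p : M) = (u.1 (p : E)) ^ κ := by
    have h0 : algebraMap E M (p : E) = (p : M) := map_natCast _ p
    rw [← hu, h0]
  have hup : u.1 (p : E) < 1 := by
    by_contra hc
    rw [not_lt] at hc
    have h2 := Real.one_le_rpow hc hκ.le
    rw [← hp] at h2
    exact absurd hw (not_lt.2 h2)
  obtain ⟨g1, g2⟩ := hφ u hup
  have hε : 0 ≤ u.1 (p : E) ^ δ := Real.rpow_nonneg (u.1.nonneg _) δ
  obtain ⟨e, rfl⟩ : ∃ e : E, x = algebraMap E M e := by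
    refine ⟨⟨x, hx⟩, ?_⟩
    apply Subtype.ext
    rw [hmap]
  obtain rfl : x' = algebraMap E M ((φ ^ (3 * c)) e) := by
    apply Subtype.ext
    rw [hmap, hx', hmap, hΦc]
  obtain ⟨s1, s2⟩ := frl_step u (p ^ f) _ hε φ g1 g2 (3 * c) e
  refine ⟨?_, fun hx1 => ?_⟩
  · rw [hu, hu, s1]
  · have hu1 : u.1 e ≤ 1 := by
      by_contra hc
      rw [not_le] at hc
      have h2 := Real.one_lt_rpow hc hκ
      rw [← hu] at h2
      exact absurd hx1 (not_le.2 h2)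
    have h3 := s2 hu1
    have h4 : (p ^ (3 * f)) ^ c = (p ^ f) ^ (3 * c) := by
      rw [← pow_mul, ← pow_mul]
      congr 1
      ring
    rw [h4, ← map_pow, ← map_sub, hu, hp]
    have h5 : ((u.1 (p : E)) ^ κ) ^ δ = ((u.1 (p : E)) ^ δ) ^ κ := by
      rw [← Real.rpow_mul (u.1.nonneg _), ← Real.rpow_mul (u.1.nonneg _), mul_comm]
    rw [h5]
    exact Real.rpow_le_rpow (u.1.nonneg _) h3 hκ.le

theorem pf_FRL (h1 : T_RS) (h2 : T_LVB) (h3 : T_FRF) : T_FRL := by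
  intro F Ω _ _ _ _ _ _ _ p hp r γ hγ v N' hN'
  have hN0 : 0 < N' := by
    rcases Nat.eq_zero_or_pos N' with h | h
    · exact absurd (h ▸ dvd_zero p) hN'
    · exact h
  have hN : 0 < p ^ v * N' := Nat.mul_pos (pow_pos hp.pos v) hN0
  obtain ⟨hfd, hgal, ⟨ζ, hζ⟩, -, htop, -⟩ := h2 F Ω r γ hγ (p ^ v * N') 1 hN one_pos
  have hnf : NumberField (Lv F Ω γ (p ^ v * N') 1) := NumberField.of_module_finite F _
  have htop' : IntermediateField.adjoin F {ζ} = ⊤ := by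
    rw [eq_top_iff, ← htop, IntermediateField.adjoin_le_iff]
    haveI : NeZero (p ^ v * N') := ⟨hN.ne'⟩
    rintro z (hz | ⟨i, hz⟩)
    · obtain ⟨k, -, hk⟩ := hζ.eq_pow_of_pow_eq_one hz
      rw [← hk]
      exact pow_mem (IntermediateField.mem_adjoin_simple_self F ζ) k
    · rw [pow_one] at hz
      rw [hz]
      exact (IntermediateField.adjoin F {ζ}).algebraMap_mem _
  obtain ⟨φ, hφ⟩ := h3 F (Lv F Ω γ (p ^ v * N') 1) p v N' hp hN' ζ hζ htop'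
  exact frl_aux h1 F Ω (Lv F Ω γ (p ^ v * N') 1) p _ _ φ hφ

end Pool.Agent.H79.SX
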