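import Pool.Agent.H29.SX.Targets

/-!
Board `shx_modules`, row MUJ: products of Laurent polynomials and their jets.
-/

set_option autoImplicit false

namespace Pool.Agent.H79.SX

open Pool.Agent.H29.SX

/-- polynomial functions, by differences -/
def Pl {A Ω : Type} [AddCommGroup A] [CommRing Ω] : ℕ → (A → Ω) → Prop
  | 0, c => ∀ b, c b = 0
  | t + 1, c => ∀ a, Pl t (fun b => c (a + b) - c b)

section

variable {A Ω : Type} [AddCommGroup A] [CommRing Ω]

theorem Pl_add : ∀ (t : ℕ) (c c' : A → Ω), Pl t c → Pl t c' → Pl t (fun b => c b + c' b) := by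
  intro t
  induction t with
  | zero =>
    intro c c' h h' b
    change c b + c' b = 0
    rw [h b, h' b, add_zero]
  | succ t ih =>
    intro c c' h h' a
    have h1 := ih _ _ (h a) (h' a)
    have he : (fun b => (c (a + b) - c b) + (c' (a + b) - c' b)) =
        fun b => (c (a + b) + c' (a + b)) - (c b + c' b) := by
      funext b
      ring
    rw [he] at h1
    exact h1

theorem Pl_smul (x : Ω) : ∀ (t : ℕ) (c : A → Ω), Pl t c → Pl t (fun b => x * c b) := by
  intro t
  induction t with
  | zero =>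
    intro c h b
    change x * c b = 0
    rw [h b, mul_zero]
  | succ t ih =>
    intro c h a
    have h1 := ih _ (h a)
    have he : (fun b => x * (c (a + b) - c b)) = fun b => x * c (a + b) - x * c b := by
      funext b
      ring
    rw [he] at h1
    exact h1

theorem Pl_succ : ∀ (t : ℕ) (c : A → Ω), Pl t c → Pl (t + 1) c := by
  intro t
  induction t with
  | zero =>
    intro c h a b
    change c (a + b) - c b = 0
    rw [h, h, sub_zero]
  | succ t ih =>
    intro c h a
    exact ih _ (h a)

theorem Pl_mono {s t : ℕ} (hst : s ≤ t) (c : A → Ω) (h : Pl s c) : Pl t c := by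
  induction t, hst using Nat.le_induction with
  | base => exact h
  | succ t _ ih => exact Pl_succ t c ih

theorem Pl_lin (e : A → Ω) (he : ∀ a b, e (a + b) = e a + e b) :
    ∀ (t : ℕ) (c : A → Ω), Pl t c → Pl (t + 1) (fun b => e b * c b) := by
  intro t
  induction t with
  | zero =>
    intro c h a b
    change e (a + b) * c (a + b) - e b * c b = 0
    rw [h, h, mul_zero, mul_zero, sub_zero]
  | succ t ih =>
    intro c h a
    have h1 := ih _ (h a)
    have h2 := Pl_smul (e a) (t + 1) c h
    have h3 := Pl_smul (e a) (t + 1) _ (Pl_succ t _ (h a))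
    have h4 := Pl_add (t + 1) _ _ h1 (Pl_add (t + 1) _ _ h2 h3)
    have h5 : (fun b => e b * (c (a + b) - c b) + (e a * c b + e a * (c (a + b) - c b))) =
        fun b => e (a + b) * c (a + b) - e b * c b := by
      funext b
      rw [he]
      ring
    rw [h5] at h4
    exact h4

theorem Pl_pow (e : A → Ω) (he : ∀ a b, e (a + b) = e a + e b) (t : ℕ) (c : A → Ω)
    (h : Pl t c) : ∀ n : ℕ, Pl (t + n) (fun b => e b ^ n * c b) := by
  intro n
  induction n with
  | zero =>
    have h5 : (fun b => e b ^ 0 * c b) = c := by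
      funext b
      rw [pow_zero, one_mul]
    rw [h5]
    exact h
  | succ n ih =>
    have h1 := Pl_lin e he (t + n) _ ih
    have h5 : (fun b => e b * (e b ^ n * c b)) = fun b => e b ^ (n + 1) * c b := by
      funext b
      ring
    rw [h5] at h1
    exact h1

theorem Pl_jc {m : ℕ} (L : A →+ (Fin m → ℤ)) (κ : Fin m → ℕ) (s : Finset (Fin m)) :
    Pl (∑ l ∈ s, κ l + 1) (fun b : A => ∏ l ∈ s, ((L b l : ℤ) : Ω) ^ (κ l)) := by
  classical
  induction s using Finset.induction_on with
  | empty =>
    intro a b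
    simp
  | insert l s hl ih =>
    have h1 := Pl_pow (fun b : A => ((L b l : ℤ) : Ω)) (fun a b => by
      rw [map_add, Pi.add_apply, Int.cast_add]) _ _ ih (κ l)
    have h2 : (∑ l ∈ s, κ l + 1) + κ l = ∑ l ∈ insert l s, κ l + 1 := by
      rw [Finset.sum_insert hl]
      ring
    have h3 : (fun b : A => ((L b l : ℤ) : Ω) ^ (κ l) * ∏ l ∈ s, ((L b l : ℤ) : Ω) ^ (κ l)) =
        fun b : A => ∏ l ∈ insert l s, ((L b l : ℤ) : Ω) ^ (κ l) := by
      funext b
      rw [Finset.prod_insert hl]
    rw [h2, h3] at h1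
    exact h1

end

section

variable {K A Ω : Type} [Field K] [AddCommGroup A] [Field Ω] [Algebra K Ω]

theorem ev_add (g : A → Ω) (f h : A →₀ K) : ev K g (f + h) = ev K g f + ev K g h := by
  classical
  unfold ev
  refine Finsupp.sum_add_index' ?_ ?_
  · intro a
    rw [map_zero, zero_mul]
  · intro a x x'
    rw [map_add, add_mul]

theorem ev_zero (g : A → Ω) : ev K g (0 : A →₀ K) = 0 := Finsupp.sum_zero_index

theorem ev_single (g : A → Ω) (a : A) (x : K) :
    ev K g (Finsupp.single a x) = algebraMap K Ω x * g a := by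
  unfold ev
  refine Finsupp.sum_single_index ?_
  rw [map_zero, zero_mul]

theorem ev_sum {ι : Type} (g : A → Ω) (s : Finset ι) (F : ι → (A →₀ K)) :
    ev K g (∑ i ∈ s, F i) = ∑ i ∈ s, ev K g (F i) := by
  classical
  induction s using Finset.induction_on with
  | empty => rw [Finset.sum_empty, Finset.sum_empty, ev_zero]
  | insert i s hi ih => rw [Finset.sum_insert hi, Finset.sum_insert hi, ev_add, ih]

/-- the product of Laurent polynomials -/
noncomputable def mulF (f h : A →₀ K) : A →₀ K :=
  ∑ a ∈ f.support, ∑ b ∈ h.support, Finsupp.single (a + b) (f a * h b)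

theorem ev_mulF (g : A → Ω) (f h : A →₀ K) :
    ev K g (mulF f h) = ∑ a ∈ f.support, ∑ b ∈ h.support,
      algebraMap K Ω (f a) * (algebraMap K Ω (h b) * g (a + b)) := by
  unfold mulF
  rw [ev_sum]
  refine Finset.sum_congr rfl fun a _ => ?_
  rw [ev_sum]
  refine Finset.sum_congr rfl fun b _ => ?_
  rw [ev_single, map_mul, mul_assoc]

theorem Spt_add {N : A → ℝ} {ρ : ℝ} {f h : A →₀ K} (hf : Spt N ρ f) (hh : Spt N ρ h) :
    Spt N ρ (f + h) := by
  classical
  intro a ha
  rcases Finset.mem_union.1 (Finsupp.support_add ha) with h1 | h1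
  · exact hf a h1
  · exact hh a h1

theorem Spt_sum {ι : Type} {N : A → ℝ} {ρ : ℝ} (s : Finset ι) (F : ι → (A →₀ K))
    (h : ∀ i ∈ s, Spt N ρ (F i)) : Spt N ρ (∑ i ∈ s, F i) := by
  classical
  induction s using Finset.induction_on with
  | empty =>
    intro a ha
    simp at ha
  | insert i s hi ih =>
    rw [Finset.sum_insert hi]
    exact Spt_add (h i (Finset.mem_insert_self _ _))
      (ih fun j hj => h j (Finset.mem_insert_of_mem hj))

theorem Spt_mulF {N : A → ℝ} (hN : IsNm N) {ρ ρ' : ℝ} {f h : A →₀ K} (hf : Spt N ρ f)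
    (hh : Spt N ρ' h) : Spt N (ρ + ρ') (mulF f h) := by
  classical
  unfold mulF
  refine Spt_sum _ _ fun a ha => Spt_sum _ _ fun b hb => ?_
  intro c hc
  have h1 : c = a + b := by
    by_contra hne
    rw [Finsupp.mem_support_iff, Finsupp.single_apply, if_neg (fun h => hne h.symm)] at hc
    exact hc rfl
  rw [h1]
  exact (hN.add a b).trans (add_le_add (hf a ha) (hh b hb))

theorem main_MUJ (N : A → ℝ) (hN : IsNm N) (y : A → Ω) (hy : IsPt y) (f h : A →₀ K)
    (ρ₁ ρ₂ : ℝ) (hf : Spt N ρ₁ f) (hh : Spt N ρ₂ h) : ∀ t : ℕ,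
    ∃ k : A →₀ K, Spt N (t * ρ₁ + ρ₂) k ∧
    (∀ z : A → Ω, IsPt z → ev K z k = (ev K z f) ^ t * ev K z h) ∧
    (ev K y f = 0 → ∀ c : A → Ω, Pl t c → ev K (fun a => c a * y a) k = 0) := by
  intro t
  induction t with
  | zero =>
    refine ⟨h, ?_, ?_, ?_⟩
    · rw [Nat.cast_zero, zero_mul, zero_add]
      exact hh
    · intro z _
      rw [pow_zero, one_mul]
    · intro _ c hc
      unfold ev
      refine Finset.sum_eq_zero fun a _ => ?_
      change algebraMap K Ω (h a) * (c a * y a) = 0
      rw [hc a, zero_mul, mul_zero]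
  | succ t ih =>
    obtain ⟨k, h1, h2, h3⟩ := ih
    refine ⟨mulF f k, ?_, ?_, ?_⟩
    · have h4 := Spt_mulF hN hf h1
      have h5 : ((t + 1 : ℕ) : ℝ) * ρ₁ + ρ₂ = ρ₁ + (t * ρ₁ + ρ₂) := by
        push_cast
        ring
      rw [h5]
      exact h4
    · intro z hz
      rw [ev_mulF]
      have h4 : ev K z f = ∑ a ∈ f.support, algebraMap K Ω (f a) * z a := rfl
      have h5 : ev K z k = ∑ b ∈ k.support, algebraMap K Ω (k b) * z b := rfl
      have h6 : ∑ a ∈ f.support, ∑ b ∈ k.support,
          algebraMap K Ω (f a) * (algebraMap K Ω (k b) * z (a + b)) = ev K z f * ev K z k := by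
        rw [h4, h5, Finset.sum_mul_sum]
        refine Finset.sum_congr rfl fun a _ => Finset.sum_congr rfl fun b _ => ?_
        rw [hz.add]
        ring
      rw [h6, h2 z hz]
      ring
    · intro h0 c hc
      rw [ev_mulF]
      have h4 : ev K y f = ∑ a ∈ f.support, algebraMap K Ω (f a) * y a := rfl
      have h5 : ∀ c' : A → Ω, ev K (fun a => c' a * y a) k =
          ∑ b ∈ k.support, algebraMap K Ω (k b) * (c' b * y b) := fun c' => rfl
      have h6 : ∀ a ∈ f.support, ∑ b ∈ k.support,
          algebraMap K Ω (f a) * (algebraMap K Ω (k b) * (c (a + b) * y (a + b))) =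
          (algebraMap K Ω (f a) * y a) * ev K (fun b => c b * y b) k := by
        intro a _
        have h7 := h3 h0 _ (hc a)
        rw [h5] at h7
        rw [h5, Finset.mul_sum]
        have h8 : ∑ b ∈ k.support,
            algebraMap K Ω (f a) * (algebraMap K Ω (k b) * (c (a + b) * y (a + b))) =
            ∑ b ∈ k.support, (algebraMap K Ω (f a) * y a) *
              (algebraMap K Ω (k b) * (c b * y b)) +
            (algebraMap K Ω (f a) * y a) * ∑ b ∈ k.support,
              algebraMap K Ω (k b) * ((c (a + b) - c b) * y b) := by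
          rw [Finset.mul_sum, ← Finset.sum_add_distrib]
          refine Finset.sum_congr rfl fun b _ => ?_
          rw [hy.add]
          ring
        rw [h8, h7, mul_zero, add_zero]
      rw [Finset.sum_congr rfl h6, ← Finset.sum_mul, ← h4, h0, zero_mul]

end

theorem pf_MUJ : T_MUJ := by
  intro K Ω _ _ _ m' m L N hN y hy t f h ρ₁ ρ₂ hf hh
  obtain ⟨k, h1, h2, h3⟩ := main_MUJ N hN y hy f h ρ₁ ρ₂ hf hh t
  refine ⟨k, h1, h2, ?_⟩
  intro h0 κ hκ
  refine h3 h0 (fun a => jc Ω κ (L a)) ?_
  refine Pl_mono (s := ∑ l, κ l + 1) hκ _ ?_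
  exact Pl_jc L κ Finset.univ

end Pool.Agent.H79.SX
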